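import Pool.Agent.W97.KE.Stm

/-!
Fitting ideals: annihilation, and behaviour under a surjective ring homomorphism.
-/

set_option autoImplicit false

namespace Pool.Agent.W349.KE

open Pool.Agent.W97.KE

theorem s_fitt : S_FITT := by
  intro R M _ _ _ I hI
  obtain ⟨n, φ, hφ, rfl⟩ := hI
  constructor
  · intro r hr x
    induction hr using Submodule.span_induction with
    | mem r hr =>
      obtain ⟨A, hA, rfl⟩ := hr
      obtain ⟨v, rfl⟩ := hφ x
      rw [← map_smul]
      have key : A.det • v = ∑ i, (Matrix.vecMul v A.adjugate) i • A i := by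
        have h1 : Matrix.vecMul (Matrix.vecMul v A.adjugate) A = A.det • v := by
          rw [Matrix.vecMul_vecMul, Matrix.adjugate_mul, Matrix.vecMul_smul, Matrix.vecMul_one]
        rw [← h1]
        funext j
        simp [Matrix.vecMul, dotProduct, Finset.sum_apply]
      rw [key, map_sum]
      refine Finset.sum_eq_zero fun i _ => ?_
      rw [map_smul, hA i, smul_zero]
    | zero => rw [zero_smul]
    | add a b _ _ ha hb => rw [add_smul, ha, hb, add_zero]
    | smul a b _ hb => rw [smul_assoc, hb, smul_zero]
  · intro S _ ρ hρ J hJ t ht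
    refine ⟨n, ?_⟩
    let N : Submodule S (Fin n → S) :=
      { carrier := {w | ∃ v : Fin n → R, φ v = 0 ∧ w = fun i => ρ (v i)}
        add_mem' := by
          rintro a b ⟨v, hv, rfl⟩ ⟨w, hw, rfl⟩
          refine ⟨v + w, by rw [map_add, hv, hw, add_zero], ?_⟩
          funext i
          simp
        zero_mem' := ⟨0, map_zero _, by funext i; simp⟩
        smul_mem' := by
          rintro c a ⟨v, hv, rfl⟩
          obtain ⟨r, rfl⟩ := hρ c
          refine ⟨r • v, by rw [map_smul, hv, smul_zero], ?_⟩
          funext i
          simp }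
    have hN : ∀ w : Fin n → S, w ∈ N ↔ ∃ v : Fin n → R, φ v = 0 ∧ w = fun i => ρ (v i) :=
      fun w => Iff.rfl
    refine ⟨N, ?_, ?_⟩
    · intro r hr v
      have hv : ∃ v' : Fin n → R, v = fun i => ρ (v' i) := by
        have h0 := hρ
        choose g hg using h0
        exact ⟨fun i => g (v i), by funext i; rw [hg]⟩
      obtain ⟨v', rfl⟩ := hv
      have h1 : φ (r • v') ∈ (J • (⊤ : Submodule R M) : Submodule R M) := by
        rw [map_smul]
        exact ht r hr _
      have h2 : (J • (⊤ : Submodule R M) : Submodule R M) =
          (J • (⊤ : Submodule R (Fin n → R)) : Submodule R (Fin n → R)).map φ := by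
        rw [Submodule.map_smul'', Submodule.map_top, LinearMap.range_eq_top.2 hφ]
      rw [h2] at h1
      obtain ⟨u, hu, hu2⟩ := h1
      have h3 : ∀ u ∈ (J • (⊤ : Submodule R (Fin n → R)) : Submodule R (Fin n → R)),
          ∀ i, ρ (u i) = 0 := by
        intro u hu
        induction hu using Submodule.smul_induction_on' with
        | smul a ha b _ =>
          intro i
          simp [hJ a ha]
        | add a _ b _ ha hb =>
          intro i
          simp [ha i, hb i]
      rw [hN]
      refine ⟨r • v' - u, by rw [map_sub, hu2, sub_self], ?_⟩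
      funext i
      simp [h3 u hu i]
    · rw [Ideal.map_span]
      apply le_antisymm
      · rw [Ideal.span_le]
        rintro d ⟨A, hA, rfl⟩
        choose B hB hB2 using fun i => (hN _).1 (hA i)
        apply Ideal.subset_span
        refine ⟨(Matrix.of B).det, ⟨Matrix.of B, fun i => hB i, rfl⟩, ?_⟩
        rw [RingHom.map_det]
        congr 1
        ext i j
        simp [hB2 i]
      · rw [Ideal.span_le]
        rintro d ⟨e, ⟨A, hA, rfl⟩, rfl⟩
        apply Ideal.subset_span
        refine ⟨A.map ρ, fun i => (hN _).2 ⟨A i, hA i, ?_⟩, ?_⟩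
        · funext j
          simp
        · rw [RingHom.map_det]
          rfl

end Pool.Agent.W349.KE
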