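import Pool.Agent.W97.KE.Stm

/-!
The `7`-torsion of `y² = x³ - 11x² - x`: irreducibility and no points over `K_{m,∞}`.
-/

set_option autoImplicit false

open scoped Classical

namespace Pool.Agent.W349.KE

open Pool.Agent.W97.KE
open Pool.Agent.W97.V20 (E4)

theorem alg : Algebra.IsAlgebraic ℚ Qb := by
  have h : @Algebra.IsAlgebraic ℚ Qb _ _ (AlgebraicClosure.instAlgebra ℚ) :=
    AlgebraicClosure.isAlgebraic ℚ
  have e : (AlgebraicClosure.instAlgebra ℚ : Algebra ℚ (AlgebraicClosure ℚ)) =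
      DivisionRing.toRatAlgebra := Subsingleton.elim _ _
  exact e ▸ h

theorem isAC : IsAlgClosure ℚ Qb := ⟨AlgebraicClosure.isAlgClosed ℚ, alg⟩

theorem nrm : Normal ℚ Qb := by
  have := isAC
  exact IsAlgClosure.normal ℚ Qb

/-- the curve over `F` -/
abbrev EF (F : Type) [Field F] : WeierstrassCurve.Affine F := (E4.baseChange F).toAffine

theorem eqn_iff {F : Type} [Field F] (x y : F) :
    (EF F).Equation x y ↔ y ^ 2 = x ^ 3 - 11 * x ^ 2 - x := by
  rw [WeierstrassCurve.Affine.equation_iff]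
  simp only [EF, E4, WeierstrassCurve.baseChange, WeierstrassCurve.map]
  simp
  constructor
  · intro h; linear_combination h
  · intro h; linear_combination h

theorem nons_iff {F : Type} [Field F] [CharZero F] (x y : F) :
    (EF F).Nonsingular x y ↔ y ^ 2 = x ^ 3 - 11 * x ^ 2 - x := by
  rw [← eqn_iff, WeierstrassCurve.Affine.equation_iff_nonsingular_of_Δ_ne_zero]
  have h1 : (E4.baseChange F).Δ = ((E4.Δ : ℤ) : F) := by
    rw [WeierstrassCurve.baseChange, WeierstrassCurve.map_Δ]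
    simp
  have h2 : E4.Δ = 2000 := by
    simp [E4, WeierstrassCurve.Δ, WeierstrassCurve.b₂, WeierstrassCurve.b₄, WeierstrassCurve.b₆,
      WeierstrassCurve.b₈]
  change (E4.baseChange F).Δ ≠ 0
  rw [h1, h2]
  norm_num

theorem act_some (g : GQ) (x y : Qb) (h : (EF Qb).Nonsingular x y) :
    ∃ h', act E4 g (WeierstrassCurve.Affine.Point.some x y h : Pt E4 Qb) =
      WeierstrassCurve.Affine.Point.some (g x) (g y) h' := by
  exact ⟨_, rfl⟩

theorem pm_eq (x y x' y' : Qb) (h : (EF Qb).Nonsingular x y) (h' : (EF Qb).Nonsingular x' y')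
    (e : x = x') :
    (WeierstrassCurve.Affine.Point.some x y h : Pt E4 Qb) =
        WeierstrassCurve.Affine.Point.some x' y' h' ∨
      (WeierstrassCurve.Affine.Point.some x y h : Pt E4 Qb) =
        -WeierstrassCurve.Affine.Point.some x' y' h' := by
  subst e
  rcases WeierstrassCurve.Affine.Y_eq_of_X_eq h.1 h'.1 rfl with e | e
  · left
    subst e
    rfl
  · right
    rw [WeierstrassCurve.Affine.Point.neg_some]
    subst e
    rfl

theorem aev (L : Type) [Field L] [Algebra ℚ L] (z : L)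
    (hz : (Psi7.map (Int.castRingHom L)).eval z = 0) :
    Polynomial.aeval z (Psi7.map (Int.castRingHom ℚ)) = 0 := by
  rw [Polynomial.aeval_def, Polynomial.eval₂_map]
  rw [Polynomial.eval_map] at hz
  rw [← hz]
  congr 1
  exact Subsingleton.elim _ _

theorem conj_root (hI : S_IRR) (x x' : Qb)
    (h : (Psi7.map (Int.castRingHom Qb)).eval x = 0)
    (h' : (Psi7.map (Int.castRingHom Qb)).eval x' = 0) : ∃ g : GQ, g x = x' := by
  have := nrm
  have h1 := minpoly.eq_of_irreducible hI (aev Qb x h)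
  have h2 := minpoly.eq_of_irreducible hI (aev Qb x' h')
  have h3 : IsConjRoot ℚ x x' := by
    rw [isConjRoot_def, ← h1, ← h2]
  obtain ⟨σ, hσ⟩ := (isConjRoot_iff_exists_algEquiv (K := ℚ) (L := Qb)).1 h3
  exact ⟨σ⁻¹, by rw [← hσ]; exact σ.symm_apply_apply x'⟩

theorem tors_iff (hP : S_PSI) (x y : Qb) (h : (EF Qb).Nonsingular x y) :
    7 • (WeierstrassCurve.Affine.Point.some x y h : Pt E4 Qb) = 0 ↔
      (Psi7.map (Int.castRingHom Qb)).eval x = 0 := by
  refine hP Qb ?_ ?_ ?_ ?_ x y h <;> norm_num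

/-- a stable nonzero subgroup of `E[7]` is everything -/
theorem irr_aux (hP : S_PSI) (hI : S_IRR) (V : AddSubgroup (Pt E4 Qb))
    (hV : ∀ P ∈ V, 7 • P = 0) (hs : ∀ (g : GQ), ∀ P ∈ V, act E4 g P ∈ V) :
    V = ⊥ ∨ ∀ P : Pt E4 Qb, 7 • P = 0 → P ∈ V := by
  by_cases hb : V = ⊥
  · exact Or.inl hb
  right
  obtain ⟨⟨P, hPV⟩, hP0⟩ := (AddSubgroup.ne_bot_iff_exists_ne_zero).1 hb
  have hP0' : P ≠ 0 := fun e => hP0 (Subtype.ext e)
  intro Q hQ
  match P, hPV, hP0' with
  | .zero, _, h0 => exact absurd rfl h0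
  | .some x y h, hPV, h0 =>
    match Q, hQ with
    | .zero, _ => exact V.zero_mem
    | .some x' y' h', hQ =>
      have hx := (tors_iff hP x y h).1 (hV _ hPV)
      have hx' := (tors_iff hP x' y' h').1 hQ
      obtain ⟨g, hg⟩ := conj_root hI x x' hx hx'
      obtain ⟨h'', hact⟩ := act_some g x y h
      have hm := hs g _ hPV
      rw [hact] at hm
      rcases pm_eq x' y' (g x) (g y) h' h'' hg.symm with e | e
      · rw [e]; exact hm
      · rw [e]; exact V.neg_mem hm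

theorem comm_fix (m : ℕ) (hm : 1 ≤ m) (s k : GQ) : (k * s)⁻¹ * (s * k) ∈ H 7 m := by
  intro n z hz
  have hN : m * 7 ^ (n + 1) ≠ 0 := by positivity
  have : NeZero (m * 7 ^ (n + 1)) := ⟨hN⟩
  have hz0 : z ≠ 0 := by
    rintro rfl
    rw [zero_pow hN] at hz
    exact zero_ne_one hz
  have hroot : Units.mk0 z hz0 ∈ rootsOfUnity (m * 7 ^ (n + 1)) Qb := by
    rw [mem_rootsOfUnity]
    ext
    simpa using hz
  obtain ⟨a, ha⟩ := map_rootsOfUnity_eq_pow_self k ⟨Units.mk0 z hz0, hroot⟩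
  obtain ⟨b, hb⟩ := map_rootsOfUnity_eq_pow_self s ⟨Units.mk0 z hz0, hroot⟩
  have ha' : k z = z ^ a := ha
  have hb' : s z = z ^ b := hb
  have h1 : (s * k) z = (k * s) z := by
    rw [AlgEquiv.mul_apply, AlgEquiv.mul_apply, ha', hb', map_pow, map_pow, ha', hb', ← pow_mul,
      ← pow_mul, mul_comm]
  rw [AlgEquiv.mul_apply, h1]
  exact (k * s).symm_apply_apply z

/-- complex conjugation -/
theorem exists_kappa : ∃ (j : Qb →+* ℂ) (k : GQ), (∀ x, j (k x) = (starRingEnd ℂ) (j x)) ∧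
    ∀ z : ℂ, (Psi7.map (Int.castRingHom ℂ)).eval z = 0 → S_IRR → ∃ a : Qb, j a = z := by
  have hn := nrm
  have ha := alg
  have hac : IsAlgClosed Qb := AlgebraicClosure.isAlgClosed ℚ
  let j : Qb →ₐ[ℚ] ℂ := IsAlgClosed.lift
  let _ : Algebra Qb ℂ := j.toRingHom.toAlgebra
  have : IsScalarTower ℚ Qb ℂ := IsScalarTower.of_algebraMap_eq fun x => by
    change _ = j (algebraMap ℚ Qb x)
    rw [AlgHom.commutes]
  let c : ℂ ≃ₐ[ℚ] ℂ := Complex.conjAe.restrictScalars ℚ
  refine ⟨j.toRingHom, c.restrictNormal Qb, ?_, ?_⟩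
  · intro x
    exact AlgEquiv.restrictNormal_commutes c Qb x
  · intro z hz hI
    have hz' := aev ℂ z hz
    have hint : IsIntegral ℚ z := by
      rw [← isAlgebraic_iff_isIntegral]
      exact ⟨_, hI.ne_zero, hz'⟩
    have := hint.mem_range_algHom_of_minpoly_splits (IsAlgClosed.splits _) j
    obtain ⟨a, ha⟩ := this
    exact ⟨a, ha⟩

theorem real_of_sq (z : ℂ) (r : ℝ) (hr : 0 < r) (h : z ^ 2 = r) : (starRingEnd ℂ) z = z := by
  rw [Complex.conj_eq_iff_im]
  have h1 := congrArg Complex.re h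
  have h2 := congrArg Complex.im h
  simp [pow_two] at h1 h2
  have h3 : z.re * z.im = 0 := by linarith
  rcases mul_eq_zero.1 h3 with h4 | h4
  · rw [h4] at h1
    nlinarith [sq_nonneg z.im]
  · exact h4

theorem imag_of_sq (z : ℂ) (r : ℝ) (hr : r < 0) (h : z ^ 2 = r) : (starRingEnd ℂ) z = -z := by
  have h1 := congrArg Complex.re h
  have h2 := congrArg Complex.im h
  simp [pow_two] at h1 h2
  have h3 : z.re * z.im = 0 := by linarith
  have h5 : z.re = 0 := by
    rcases mul_eq_zero.1 h3 with h4 | h4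
    · exact h4
    · rw [h4] at h1
      nlinarith [sq_nonneg z.re]
  apply Complex.ext
  · simp [h5]
  · simp

theorem s_irt : S_IRT := by
  intro hP hI hR
  refine ⟨fun V hV hs => irr_aux hP hI V hV hs, ?_⟩
  intro m hm P hP7 hfix
  by_contra hP0
  let V : AddSubgroup (Pt E4 Qb) :=
    { carrier := {P | 7 • P = 0 ∧ ∀ g ∈ H 7 m, act E4 g P = P}
      add_mem' := by
        rintro a b ⟨ha, ha'⟩ ⟨hb, hb'⟩
        exact ⟨by rw [smul_add, ha, hb, add_zero],
          fun g hg => by rw [map_add, ha' g hg, hb' g hg]⟩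
      zero_mem' := ⟨smul_zero _, fun g _ => map_zero _⟩
      neg_mem' := by
        rintro a ⟨ha, ha'⟩
        exact ⟨by rw [smul_neg, ha, neg_zero], fun g hg => by rw [map_neg, ha' g hg]⟩ }
  have hVm : ∀ P, P ∈ V ↔ 7 • P = 0 ∧ ∀ g ∈ H 7 m, act E4 g P = P := fun P => Iff.rfl
  have hst : ∀ (g : GQ), ∀ P ∈ V, act E4 g P ∈ V := by
    intro g P hPV
    obtain ⟨h1, h2⟩ := (hVm P).1 hPV
    refine (hVm _).2 ⟨by rw [← map_nsmul, h1, map_zero], fun h hh => ?_⟩
    have h3 : g⁻¹ * h * g ∈ H 7 m := by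
      have := (inferInstance : (H 7 m).Normal).conj_mem h hh g⁻¹
      rwa [inv_inv] at this
    have h4 := h2 _ h3
    rw [← act_mul]
    have h5 : h * g = g * (g⁻¹ * h * g) := by group
    rw [h5, act_mul, h4]
  rcases irr_aux hP hI V (fun P h => h.1) hst with hb | hall
  · have : P ∈ V := (hVm P).2 ⟨hP7, hfix⟩
    rw [hb] at this
    exact hP0 (AddSubgroup.mem_bot.1 this)
  · obtain ⟨j, k, hk, hj⟩ := exists_kappa
    obtain ⟨x₀, x₁, hx₀, hx₁, hp₀, hp₁⟩ := hR
    have hc : ∀ x : ℝ, (Psi7.map (Int.castRingHom ℝ)).eval x = 0 →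
        (Psi7.map (Int.castRingHom ℂ)).eval (x : ℂ) = 0 := by
      intro x hx
      have h1 := congrArg (Complex.ofRealHom) hx
      rw [map_zero, Polynomial.eval_map, Polynomial.hom_eval₂] at h1
      rw [Polynomial.eval_map]
      rw [← h1]
      congr 1
    obtain ⟨a₀, ha₀⟩ := hj _ (hc x₀ hx₀) hI
    obtain ⟨a₁, ha₁⟩ := hj _ (hc x₁ hx₁) hI
    have hjr : ∀ a : Qb, (Psi7.map (Int.castRingHom ℂ)).eval (j a) = 0 →
        (Psi7.map (Int.castRingHom Qb)).eval a = 0 := by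
      intro a ha
      apply j.injective
      rw [map_zero, Polynomial.eval_map, Polynomial.hom_eval₂, ← ha, Polynomial.eval_map]
      congr 1
      exact RingHom.ext_int _ _
    have hr₀ := hjr a₀ (by rw [ha₀]; exact hc x₀ hx₀)
    have hr₁ := hjr a₁ (by rw [ha₁]; exact hc x₁ hx₁)
    have hac : IsAlgClosed Qb := AlgebraicClosure.isAlgClosed ℚ
    obtain ⟨y₀, hy₀⟩ := IsAlgClosed.exists_pow_nat_eq (a₀ ^ 3 - 11 * a₀ ^ 2 - a₀)
      (n := 2) (by norm_num)
    obtain ⟨s, hs⟩ := conj_root hI a₀ a₁ hr₀ hr₁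
    have hn₀ : (EF Qb).Nonsingular a₀ y₀ := (nons_iff a₀ y₀).2 hy₀
    have hmem := hall (.some a₀ y₀ hn₀) ((tors_iff hP a₀ y₀ hn₀).2 hr₀)
    have hcomm := ((hVm _).1 hmem).2 _ (comm_fix m hm s k)
    have hcomm2 : act E4 (s * k) (.some a₀ y₀ hn₀) = act E4 (k * s) (.some a₀ y₀ hn₀) := by
      have h1 : s * k = (k * s) * ((k * s)⁻¹ * (s * k)) := by group
      conv_lhs => rw [h1, act_mul, hcomm]
    obtain ⟨h1, e1⟩ := act_some (s * k) a₀ y₀ hn₀
    obtain ⟨h2, e2⟩ := act_some (k * s) a₀ y₀ hn₀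
    rw [e1, e2] at hcomm2
    have hy : (s * k) y₀ = (k * s) y₀ := by
      injection hcomm2
    rw [AlgEquiv.mul_apply, AlgEquiv.mul_apply] at hy
    have hky : k y₀ = y₀ := by
      apply j.injective
      rw [hk]
      apply real_of_sq _ _ hp₀
      have h11 : j 11 = 11 := map_ofNat j 11
      rw [← map_pow, hy₀]
      simp [ha₀, h11]
    rw [hky] at hy
    have hsy : (j (s y₀)) ^ 2 = ((x₁ ^ 3 - 11 * x₁ ^ 2 - x₁ : ℝ) : ℂ) := by
      have h11 : j 11 = 11 := map_ofNat j 11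
      have s11 : s 11 = 11 := map_ofNat s 11
      rw [← map_pow, ← map_pow, hy₀]
      simp [hs, ha₁, s11, h11]
    have h3 := imag_of_sq _ _ hp₁ hsy
    rw [← hk, ← hy] at h3
    have h4 : j (s y₀) = 0 := by
      have : (2 : ℂ) * j (s y₀) = 0 := by linear_combination h3
      simpa using this
    rw [h4] at hsy
    have h5 : ((x₁ ^ 3 - 11 * x₁ ^ 2 - x₁ : ℝ) : ℂ) = 0 := by rw [← hsy]; simp
    rw [Complex.ofReal_eq_zero] at h5
    linarith

end Pool.Agent.W349.KE
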